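import Mathlib

/-!
# Exponentials of sums with an approximate identity
-/

set_option autoImplicit false
set_option linter.unusedSectionVars false
set_option linter.style.haveILetI false

open Set Filter Topology NormedSpace

namespace Pool.Agent.X196.CS

variable {𝔸 : Type*} [NormedRing 𝔸] [NormedAlgebra ℝ 𝔸] [CompleteSpace 𝔸] [NormOneClass 𝔸]

lemma exp_norm_le (x : 𝔸) : ‖exp x‖ ≤ Real.exp ‖x‖ := by
  have h1 : HasSum (fun n : ℕ => ((n.factorial : ℝ))⁻¹ • x ^ n) (exp x) :=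
    exp_series_hasSum_exp' (𝕂 := ℝ) x
  have h2 : HasSum (fun n : ℕ => ((n.factorial : ℝ))⁻¹ • ‖x‖ ^ n) (exp ‖x‖) :=
    exp_series_hasSum_exp' (𝕂 := ℝ) ‖x‖
  rw [← Real.exp_eq_exp_ℝ] at h2
  rw [← h1.tsum_eq, ← h2.tsum_eq]
  have h3 : ∀ n : ℕ, ‖((n.factorial : ℝ))⁻¹ • x ^ n‖ ≤ ((n.factorial : ℝ))⁻¹ • ‖x‖ ^ n := by
    intro n
    rw [norm_smul, Real.norm_eq_abs, abs_of_nonneg (by positivity), smul_eq_mul]
    gcongr
    exact norm_pow_le x n
  refine (norm_tsum_le_tsum_norm (Summable.of_nonneg_of_le (fun _ => norm_nonneg _) h3 h2.summable)).trans ?_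
  exact Summable.tsum_le_tsum h3 (Summable.of_nonneg_of_le (fun _ => norm_nonneg _) h3 h2.summable)
    h2.summable

lemma exp_add_comm {x y : 𝔸} (h : Commute x y) : exp (x + y) = exp x * exp y := by
  letI : NormedAlgebra ℚ 𝔸 := NormedAlgebra.restrictScalars ℚ ℝ 𝔸
  exact exp_add_of_commute h

lemma exp_smul_one (c : ℝ) : exp (c • (1 : 𝔸)) = Real.exp c • (1 : 𝔸) := by
  have h1 : HasSum (fun n : ℕ => ((n.factorial : ℝ))⁻¹ • (c • (1 : 𝔸)) ^ n) (exp (c • (1 : 𝔸))) :=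
    exp_series_hasSum_exp' (𝕂 := ℝ) _
  have h2 : HasSum (fun n : ℕ => ((n.factorial : ℝ))⁻¹ • c ^ n) (exp c) :=
    exp_series_hasSum_exp' (𝕂 := ℝ) c
  rw [← Real.exp_eq_exp_ℝ] at h2
  have h3 := h2.smul_const (1 : 𝔸)
  refine h1.unique ?_
  convert h3 using 1
  funext n
  rw [smul_pow, one_pow, smul_smul, smul_eq_mul]

/-- the exponential of `t (R - N)` -/
noncomputable def xx (R : 𝔸) (N t : ℝ) : 𝔸 := exp (t • (R - N • (1 : 𝔸)))

lemma xx_eq (R : 𝔸) (N t : ℝ) : xx R N t = Real.exp (-(t * N)) • exp (t • R) := by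
  unfold xx
  have h1 : t • (R - N • (1 : 𝔸)) = (-(t * N)) • (1 : 𝔸) + t • R := by
    rw [smul_sub, smul_smul, neg_smul]
    abel
  rw [h1, exp_add_comm, exp_smul_one, smul_mul_assoc, one_mul]
  exact ((Commute.one_left _).smul_left _)

lemma xx_norm_le {R : 𝔸} {N t : ℝ} (hR : ‖R‖ ≤ N) (ht : 0 ≤ t) : ‖xx R N t‖ ≤ 1 := by
  rw [xx_eq, norm_smul, Real.norm_eq_abs, abs_of_pos (Real.exp_pos _)]
  have h1 : ‖exp (t • R)‖ ≤ Real.exp (t * N) := by
    refine (exp_norm_le _).trans (Real.exp_le_exp.2 ?_)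
    rw [norm_smul, Real.norm_eq_abs, abs_of_nonneg ht]
    gcongr
  calc Real.exp (-(t * N)) * ‖exp (t • R)‖ ≤ Real.exp (-(t * N)) * Real.exp (t * N) := by gcongr
    _ = 1 := by rw [← Real.exp_add]; simp

lemma xx_add (R : 𝔸) (N s t : ℝ) : xx R N (s + t) = xx R N s * xx R N t := by
  unfold xx
  rw [add_smul, exp_add_comm]
  exact ((Commute.refl _).smul_left _).smul_right _

lemma xx_zero (R : 𝔸) (N : ℝ) : xx R N 0 = 1 := by
  unfold xx
  rw [zero_smul, exp_zero]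

lemma xx_hasDeriv (R : 𝔸) (N t : ℝ) :
    HasDerivAt (fun u => xx R N u) ((R - N • (1 : 𝔸)) * xx R N t) t :=
  hasDerivAt_exp_smul_const' (𝕂 := ℝ) _ t

lemma xx_comm (R : 𝔸) (N t : ℝ) : (R - N • (1 : 𝔸)) * xx R N t = xx R N t * (R - N • (1 : 𝔸)) :=
  (hasDerivAt_exp_smul_const' (𝕂 := ℝ) (R - N • (1 : 𝔸)) t).unique
    (hasDerivAt_exp_smul_const (𝕂 := ℝ) (R - N • (1 : 𝔸)) t)

/-- right absorption by the semigroup of a near-identity element -/
lemma absorb1 {p q : 𝔸} {ε T : ℝ} (hp : ‖p‖ ≤ 1) (h : ‖p * q - q‖ ≤ ε) {t : ℝ}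
    (ht : t ∈ Icc 0 T) : ‖xx p 1 t * q - q‖ ≤ ε * T := by
  have h1 := norm_image_sub_le_of_norm_deriv_le_segment' (f := fun u => xx p 1 u * q)
    (f' := fun u => xx p 1 u * (p * q - q)) (C := ε) (a := 0) (b := T) ?_ ?_ t ht
  · simp only [xx_zero, one_mul, sub_zero] at h1
    refine h1.trans ?_
    have : 0 ≤ ε := (norm_nonneg _).trans h
    exact mul_le_mul_of_nonneg_left ht.2 this
  · intro x _
    have h2 := (xx_hasDeriv p 1 x).mul_const q
    rw [xx_comm] at h2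
    have h3 : xx p 1 x * (p - (1 : ℝ) • (1 : 𝔸)) * q = xx p 1 x * (p * q - q) := by
      rw [mul_assoc, one_smul, sub_mul, one_mul]
    rw [h3] at h2
    exact h2.hasDerivWithinAt
  · intro x hx
    calc ‖xx p 1 x * (p * q - q)‖ ≤ ‖xx p 1 x‖ * ‖p * q - q‖ := norm_mul_le _ _
      _ ≤ 1 * ε := by
        gcongr
        exact xx_norm_le hp hx.1
      _ = ε := one_mul _

lemma absorb2 {R p : 𝔸} {ε T : ℝ} (hp : ‖p‖ ≤ 1) (h : ‖R * p - R‖ ≤ ε) {t : ℝ}
    (ht : t ∈ Icc 0 T) : ‖R * xx p 1 t - R‖ ≤ ε * T := by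
  have h1 := norm_image_sub_le_of_norm_deriv_le_segment' (f := fun u => R * xx p 1 u)
    (f' := fun u => (R * p - R) * xx p 1 u) (C := ε) (a := 0) (b := T) ?_ ?_ t ht
  · simp only [xx_zero, mul_one, sub_zero] at h1
    refine h1.trans ?_
    have : 0 ≤ ε := (norm_nonneg _).trans h
    exact mul_le_mul_of_nonneg_left ht.2 this
  · intro x _
    have h2 := (xx_hasDeriv p 1 x).const_mul R
    have h3 : R * ((p - (1 : ℝ) • (1 : 𝔸)) * xx p 1 x) = (R * p - R) * xx p 1 x := by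
      rw [← mul_assoc, one_smul, mul_sub, mul_one]
    rw [h3] at h2
    exact h2.hasDerivWithinAt
  · intro x hx
    calc ‖(R * p - R) * xx p 1 x‖ ≤ ‖R * p - R‖ * ‖xx p 1 x‖ := norm_mul_le _ _
      _ ≤ ε * 1 := by
        gcongr
        · exact (norm_nonneg _).trans h
        · exact xx_norm_le hp hx.1
      _ = ε := mul_one _

lemma absorb3 {R b : 𝔸} {N ε T : ℝ} (hR : ‖R‖ ≤ N) (h : ‖b * R‖ ≤ ε) {t : ℝ}
    (ht : t ∈ Icc 0 T) : ‖b * xx R N t - Real.exp (-(t * N)) • b‖ ≤ ε * Real.exp (T * N) * T := by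
  have hε : 0 ≤ ε := (norm_nonneg _).trans h
  have hN : 0 ≤ N := (norm_nonneg _).trans hR
  have h1 := norm_image_sub_le_of_norm_deriv_le_segment' (f := fun u : ℝ => b * exp (u • R))
    (f' := fun u => b * R * exp (u • R)) (C := ε * Real.exp (T * N)) (a := 0) (b := T) ?_ ?_ t ht
  · simp only [zero_smul, exp_zero, mul_one, sub_zero] at h1
    rw [xx_eq, mul_smul_comm, ← smul_sub, norm_smul, Real.norm_eq_abs, abs_of_pos (Real.exp_pos _)]
    have h2 : Real.exp (-(t * N)) ≤ 1 := Real.exp_le_one_iff.2 (by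
      have := mul_nonneg ht.1 hN
      linarith)
    calc Real.exp (-(t * N)) * ‖b * exp (t • R) - b‖ ≤ 1 * (ε * Real.exp (T * N) * t) := by gcongr
      _ ≤ ε * Real.exp (T * N) * T := by
        rw [one_mul]
        exact mul_le_mul_of_nonneg_left ht.2 (by positivity)
  · intro x _
    have h2 := (hasDerivAt_exp_smul_const' (𝕂 := ℝ) R x).const_mul b
    rw [← mul_assoc] at h2
    exact h2.hasDerivWithinAt
  · intro x hx
    calc ‖b * R * exp (x • R)‖ ≤ ‖b * R‖ * ‖exp (x • R)‖ := norm_mul_le _ _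
      _ ≤ ε * Real.exp (T * N) := by
        gcongr
        refine (exp_norm_le _).trans (Real.exp_le_exp.2 ?_)
        rw [norm_smul, Real.norm_eq_abs, abs_of_nonneg hx.1]
        exact mul_le_mul hx.2.le hR (norm_nonneg _) (hx.1.trans hx.2.le)

/-- the exponential of the generator with one more jump -/
theorem step {R p : 𝔸} {N ε T : ℝ} (hR : ‖R‖ ≤ N) (hp : ‖p‖ ≤ 1) (h1 : ‖p * R - R‖ ≤ ε)
    (h2 : ‖R * p - R‖ ≤ ε) {t : ℝ} (ht : t ∈ Icc 0 T) :
    ‖xx (R + p) (N + 1) t - xx R N t - Real.exp (-(t * N)) • (xx p 1 t - 1)‖ ≤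
      ε * (T * (Real.exp (T * N) + 1)) * Real.exp ((2 * N + 2) * T) := by
  have hε : 0 ≤ ε := (norm_nonneg _).trans h1
  have hN : 0 ≤ N := (norm_nonneg _).trans hR
  have hT : 0 ≤ T := ht.1.trans ht.2
  let D : ℝ → 𝔸 := fun t => xx (R + p) (N + 1) t - xx R N t - Real.exp (-(t * N)) • (xx p 1 t - 1)
  let c : 𝔸 := (R + p) - (N + 1) • (1 : 𝔸)
  let rho : ℝ → 𝔸 := fun t => ((p - 1) * xx R N t - Real.exp (-(t * N)) • (p - 1)) +
    Real.exp (-(t * N)) • (R * xx p 1 t - R)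
  have hD : ∀ u : ℝ, HasDerivAt D (c * D u + rho u) u := by
    intro u
    have d1 := xx_hasDeriv (R + p) (N + 1) u
    have d2 := xx_hasDeriv R N u
    have d3 := xx_hasDeriv p 1 u
    have d4 : HasDerivAt (fun t : ℝ => Real.exp (-(t * N))) (Real.exp (-(u * N)) * (-N)) u := by
      have := ((hasDerivAt_id u).mul_const N).neg.exp
      simpa using this
    have d5 := (d1.sub d2).sub (d4.smul (d3.sub_const 1))
    have e : c * D u + rho u = (R + p - (N + 1) • (1 : 𝔸)) * xx (R + p) (N + 1) u -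
        (R - N • (1 : 𝔸)) * xx R N u -
        (Real.exp (-(u * N)) • ((p - (1 : ℝ) • (1 : 𝔸)) * xx p 1 u) +
          (Real.exp (-(u * N)) * -N) • (xx p 1 u - 1)) := by
      simp only [D, c, rho, one_smul]
      obtain ⟨X, hX⟩ : ∃ X, X = xx (R + p) (N + 1) u := ⟨_, rfl⟩
      obtain ⟨Y, hY⟩ : ∃ Y, Y = xx R N u := ⟨_, rfl⟩
      obtain ⟨Z, hZ⟩ : ∃ Z, Z = xx p 1 u := ⟨_, rfl⟩
      obtain ⟨e, he⟩ : ∃ e, e = Real.exp (-(u * N)) := ⟨_, rfl⟩
      rw [← hX, ← hY, ← hZ, ← he]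
      simp only [mul_sub, sub_mul, add_mul, smul_sub, smul_add, smul_mul_assoc,
        mul_smul_comm, one_mul, mul_one, add_smul, one_smul, smul_smul]
      module
    rw [e]
    exact d5
  have hrho : ∀ u ∈ Ico 0 T, ‖rho u‖ ≤ ε * (T * (Real.exp (T * N) + 1)) := by
    intro u hu
    have hu' : u ∈ Icc 0 T := ⟨hu.1, hu.2.le⟩
    have h3 : ‖(p - 1) * R‖ ≤ ε := by rwa [sub_mul, one_mul]
    have h4 := absorb3 hR h3 hu'
    have h5 := absorb2 hp h2 hu'
    have h6 : Real.exp (-(u * N)) ≤ 1 := Real.exp_le_one_iff.2 (by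
      have := mul_nonneg hu.1 hN
      linarith)
    calc ‖rho u‖ ≤ ‖(p - 1) * xx R N u - Real.exp (-(u * N)) • (p - 1)‖ +
          ‖Real.exp (-(u * N)) • (R * xx p 1 u - R)‖ := norm_add_le _ _
      _ ≤ ε * Real.exp (T * N) * T + 1 * (ε * T) := by
        gcongr
        rw [norm_smul, Real.norm_eq_abs, abs_of_pos (Real.exp_pos _)]
        gcongr
      _ = _ := by ring
  have hc : ‖c‖ ≤ 2 * N + 2 := by
    calc ‖c‖ ≤ ‖R + p‖ + ‖(N + 1) • (1 : 𝔸)‖ := norm_sub_le _ _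
      _ ≤ (N + 1) + (N + 1) := by
        gcongr
        · exact (norm_add_le _ _).trans (add_le_add hR hp)
        · rw [norm_smul, norm_one, mul_one, Real.norm_eq_abs, abs_of_nonneg (by linarith)]
      _ = 2 * N + 2 := by ring
  have key := norm_le_gronwallBound_of_norm_deriv_right_le (f := D) (f' := fun u => c * D u + rho u)
    (δ := 0) (K := 2 * N + 2) (ε := ε * (T * (Real.exp (T * N) + 1))) (a := 0) (b := T)
    (fun u _ => (hD u).continuousAt.continuousWithinAt) (fun u _ => (hD u).hasDerivWithinAt)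
    (by
      simp only [D, xx_zero]
      simp) (by
      intro u hu
      calc ‖c * D u + rho u‖ ≤ ‖c * D u‖ + ‖rho u‖ := norm_add_le _ _
        _ ≤ (2 * N + 2) * ‖D u‖ + ε * (T * (Real.exp (T * N) + 1)) := by
          gcongr
          · exact (norm_mul_le _ _).trans (by gcongr)
          · exact hrho u hu) t ht
  refine key.trans ?_
  rw [gronwallBound_of_K_ne_0 (by linarith : (2 * N + 2 : ℝ) ≠ 0)]
  simp only [zero_mul, zero_add, sub_zero]
  have h7 : 0 ≤ ε * (T * (Real.exp (T * N) + 1)) := by positivity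
  have h8 : ε * (T * (Real.exp (T * N) + 1)) / (2 * N + 2) ≤ ε * (T * (Real.exp (T * N) + 1)) :=
    div_le_self h7 (by linarith)
  have h9 : Real.exp ((2 * N + 2) * t) - 1 ≤ Real.exp ((2 * N + 2) * T) := by
    have : Real.exp ((2 * N + 2) * t) ≤ Real.exp ((2 * N + 2) * T) :=
      Real.exp_le_exp.2 (by nlinarith [ht.2])
    linarith
  have h10 : 0 ≤ Real.exp ((2 * N + 2) * t) - 1 := by
    have : 1 ≤ Real.exp ((2 * N + 2) * t) := Real.one_le_exp (by nlinarith [ht.1])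
    linarith
  calc _ ≤ ε * (T * (Real.exp (T * N) + 1)) * (Real.exp ((2 * N + 2) * t) - 1) := by gcongr
    _ ≤ _ := by gcongr

end Pool.Agent.X196.CS
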