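import Pool.Agent.X196.CS.Rec

/-!
# Convolution operators of finite measures on bounded continuous functions
-/

set_option autoImplicit false
set_option linter.unusedSectionVars false

open Set Filter Topology MeasureTheory BoundedContinuousFunction

namespace Pool.Agent.X196.CS

variable {H : Type*} [Group H] [TopologicalSpace H] [IsTopologicalGroup H] [LocallyCompactSpace H]
  [SecondCountableTopology H] [T2Space H] [MeasurableSpace H] [BorelSpace H]

/-- translation of a bounded continuous function -/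
noncomputable def tr (f : H →ᵇ ℝ) (s : H) : H →ᵇ ℝ :=
  f.compContinuous ⟨fun u => s * u, continuous_const_mul s⟩

lemma tr_apply (f : H →ᵇ ℝ) (s u : H) : tr f s u = f (s * u) := rfl

lemma tr_norm (f : H →ᵇ ℝ) (s : H) : ‖tr f s‖ ≤ ‖f‖ := by
  rw [norm_le (norm_nonneg _)]
  intro x
  exact f.norm_coe_le_norm _

lemma int_cont (μ : Measure H) [IsFiniteMeasure μ] (f : H →ᵇ ℝ) :
    Continuous fun s => ∫ u, f (s * u) ∂μ := by
  apply continuous_of_dominated (bound := fun _ => ‖f‖)
  · intro s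
    exact (f.continuous.comp (continuous_const_mul s)).aestronglyMeasurable
  · intro s
    exact Eventually.of_forall fun u => f.norm_coe_le_norm _
  · exact integrable_const _
  · exact Eventually.of_forall fun u => f.continuous.comp (continuous_mul_const u)

lemma int_bound (μ : Measure H) [IsFiniteMeasure μ] (f : H →ᵇ ℝ) (s : H) :
    ‖∫ u, f (s * u) ∂μ‖ ≤ μ.real univ * ‖f‖ := by
  have h1 := norm_integral_le_of_norm_le_const (μ := μ) (f := fun u => f (s * u)) (C := ‖f‖)
    (Eventually.of_forall fun u => f.norm_coe_le_norm _)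
  rwa [mul_comm] at h1

lemma int_tr (μ : Measure H) [IsFiniteMeasure μ] (f : H →ᵇ ℝ) (s : H) :
    Integrable (fun u => f (s * u)) μ := (tr f s).integrable μ

/-- the convolution operator -/
noncomputable def TT (μ : Measure H) [IsFiniteMeasure μ] : (H →ᵇ ℝ) →L[ℝ] (H →ᵇ ℝ) :=
  LinearMap.mkContinuous
    { toFun := fun f => BoundedContinuousFunction.ofNormedAddCommGroup
        (fun s => ∫ u, f (s * u) ∂μ) (int_cont μ f) (μ.real univ * ‖f‖) (int_bound μ f)
      map_add' := fun f g => by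
        ext s
        show ∫ u, (f (s * u) + g (s * u)) ∂μ = _
        rw [integral_add (int_tr μ f s) (int_tr μ g s)]
        rfl
      map_smul' := fun c f => by
        ext s
        show ∫ u, c * f (s * u) ∂μ = _
        rw [integral_const_mul]
        rfl } (μ.real univ) (fun f => by
      rw [norm_le (by positivity)]
      exact int_bound μ f)

lemma TT_apply (μ : Measure H) [IsFiniteMeasure μ] (f : H →ᵇ ℝ) (s : H) :
    TT μ f s = ∫ u, f (s * u) ∂μ := rfl

lemma TT_norm_le (μ : Measure H) [IsFiniteMeasure μ] : ‖TT μ‖ ≤ μ.real univ :=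
  LinearMap.mkContinuous_norm_le _ (by positivity) _

lemma TT_norm_le_one (μ : Measure H) [IsProbabilityMeasure μ] : ‖TT μ‖ ≤ 1 := by
  have := TT_norm_le μ
  rwa [probReal_univ] at this

lemma TT_ext (A B : (H →ᵇ ℝ) →L[ℝ] (H →ᵇ ℝ)) (h : ∀ f s, A f s = B f s) : A = B := by
  ext f s
  exact h f s

lemma TT_mconv (μ ν : Measure H) [IsFiniteMeasure μ] [IsFiniteMeasure ν] :
    TT (μ ∗ₘ ν) = TT μ * TT ν := by
  apply TT_ext
  intro f s
  show ∫ w, f (s * w) ∂(μ ∗ₘ ν) = ∫ u, ∫ v, f (s * u * v) ∂ν ∂μ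
  rw [integral_mconv (int_tr _ f s)]
  simp only [mul_assoc]

lemma TT_add (μ ν : Measure H) [IsFiniteMeasure μ] [IsFiniteMeasure ν] :
    TT (μ + ν) = TT μ + TT ν := by
  apply TT_ext
  intro f s
  show ∫ w, f (s * w) ∂(μ + ν) = ∫ u, f (s * u) ∂μ + ∫ u, f (s * u) ∂ν
  exact integral_add_measure (int_tr _ f s) (int_tr _ f s)

lemma TT_smul (c : NNReal) (μ : Measure H) [IsFiniteMeasure μ] :
    TT (c • μ) = (c : ℝ) • TT μ := by
  apply TT_ext
  intro f s
  show ∫ w, f (s * w) ∂(c • μ) = (c : ℝ) * ∫ u, f (s * u) ∂μ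
  rw [integral_smul_nnreal_measure]
  rfl

lemma TT_dirac : TT (Measure.dirac (1 : H)) = 1 := by
  apply TT_ext
  intro f s
  show ∫ w, f (s * w) ∂(Measure.dirac (1 : H)) = f s
  rw [integral_dirac, mul_one]

lemma TT_zero : TT (0 : Measure H) = 0 := by
  apply TT_ext
  intro f s
  show ∫ w, f (s * w) ∂(0 : Measure H) = 0
  rw [integral_zero_measure]

lemma TT_one (μ : Measure H) [IsProbabilityMeasure μ] : TT μ (const H 1) = const H 1 := by
  ext s
  show ∫ _, (1 : ℝ) ∂μ = 1
  simp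

lemma TT_inj {μ ν : Measure H} [IsFiniteMeasure μ] [IsFiniteMeasure ν] (h : TT μ = TT ν) :
    μ = ν := by
  apply ext_of_forall_integral_eq_of_IsFiniteMeasure
  intro f
  have h1 : TT μ f 1 = TT ν f 1 := by rw [h]
  rw [TT_apply, TT_apply] at h1
  simpa using h1

section Haar

variable (m : Measure H) [m.IsHaarMeasure]

/-- translations are continuous in `L¹` -/
lemma shift_bound (h : Lp ℝ 1 m) (v : H) (F : H →ᵇ ℝ) :
    |∫ u, F (v * u) * h u ∂m - ∫ u, F u * h u ∂m| ≤ ‖F‖ * ‖DomMulAct.mk v⁻¹ • h - h‖ := by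
  have hh : Integrable h m := memLp_one_iff_integrable.1 (Lp.memLp h)
  have hh' : Integrable (fun u => h (v⁻¹ * u)) m := hh.comp_mul_left v⁻¹
  have h1 : ∫ u, F (v * u) * h u ∂m = ∫ u, F u * h (v⁻¹ * u) ∂m := by
    rw [← integral_mul_left_eq_self (fun u => F u * h (v⁻¹ * u)) v]
    congr 1
    funext u
    rw [inv_mul_cancel_left]
  have i1 : Integrable (fun u => F u * h (v⁻¹ * u)) m :=
    hh'.bdd_mul (c := ‖F‖) F.continuous.aestronglyMeasurable (Eventually.of_forall F.norm_coe_le_norm)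
  have i2 : Integrable (fun u => F u * h u) m :=
    hh.bdd_mul (c := ‖F‖) F.continuous.aestronglyMeasurable (Eventually.of_forall F.norm_coe_le_norm)
  rw [h1, ← integral_sub i1 i2, ← Real.norm_eq_abs]
  refine (norm_integral_le_integral_norm _).trans ?_
  have h2 : ‖DomMulAct.mk v⁻¹ • h - h‖ = ∫ u, ‖h (v⁻¹ * u) - h u‖ ∂m := by
    rw [L1.norm_eq_integral_norm]
    apply integral_congr_ae
    filter_upwards [Lp.coeFn_sub (DomMulAct.mk v⁻¹ • h) h, DomMulAct.smul_Lp_ae_eq (DomMulAct.mk v⁻¹) h]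
      with u h3 h4
    rw [h3, Pi.sub_apply, h4]
    rfl
  rw [h2, ← integral_const_mul]
  apply integral_mono_of_nonneg (Eventually.of_forall fun _ => norm_nonneg _)
  · exact ((hh'.sub hh).norm).const_mul _
  · refine Eventually.of_forall fun u => ?_
    show ‖F u * h (v⁻¹ * u) - F u * h u‖ ≤ ‖F‖ * ‖h (v⁻¹ * u) - h u‖
    rw [← mul_sub, norm_mul]
    gcongr
    exact F.norm_coe_le_norm u

/-- the density of a finite absolutely continuous measure -/
noncomputable def dens (μ : Measure H) [IsFiniteMeasure μ] : Lp ℝ 1 m :=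
  (Measure.integrable_toReal_rnDeriv (μ := μ) (ν := m)).toL1 _

lemma dens_coe (μ : Measure H) [IsFiniteMeasure μ] : dens m μ =ᵐ[m] fun u => (μ.rnDeriv m u).toReal :=
  Integrable.coeFn_toL1 _

lemma int_dens {μ : Measure H} [IsFiniteMeasure μ] (hμ : μ ≪ m) (F : H →ᵇ ℝ) :
    ∫ u, F u ∂μ = ∫ u, F u * dens m μ u ∂m := by
  rw [← integral_rnDeriv_smul hμ]
  apply integral_congr_ae
  filter_upwards [dens_coe m μ] with u hu
  rw [hu, smul_eq_mul, mul_comm]

lemma left_shift {μ : Measure H} [IsFiniteMeasure μ] (hμ : μ ≪ m) {ε : ℝ} (hε : 0 < ε) :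
    ∀ᶠ v in 𝓝 (1 : H), ∀ F : H →ᵇ ℝ, |∫ u, F (v * u) ∂μ - ∫ u, F u ∂μ| ≤ ε * ‖F‖ := by
  have h1 : Tendsto (fun v : H => ‖DomMulAct.mk v⁻¹ • dens m μ - dens m μ‖) (𝓝 1) (𝓝 0) := by
    have h2 : Continuous fun v : H => ‖DomMulAct.mk v⁻¹ • dens m μ - dens m μ‖ := by
      have hfact : Fact ((1 : ENNReal) ≠ ⊤) := ⟨ENNReal.one_ne_top⟩
      have h3 : Continuous fun v : H => DomMulAct.mk v⁻¹ := by
        exact (DomMulAct.continuous_mk).comp continuous_inv
      exact ((h3.smul continuous_const).sub continuous_const).norm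
    have h4 := h2.tendsto 1
    simpa using h4
  filter_upwards [h1.eventually (gt_mem_nhds hε)] with v hv F
  have h2 := shift_bound m (dens m μ) v F
  have h3 : ∫ u, F (v * u) ∂μ = ∫ u, F (v * u) * dens m μ u ∂m := int_dens m hμ (tr F v)
  rw [int_dens m hμ F, h3]
  refine h2.trans ?_
  rw [mul_comm]
  gcongr

end Haar

end Pool.Agent.X196.CS
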