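import Pool.Agent.X196.CS.Op

/-!
# Approximate identities and completeness
-/

set_option autoImplicit false
set_option linter.unusedSectionVars false

open Set Filter Topology MeasureTheory BoundedContinuousFunction

namespace Pool.Agent.X196.CS

variable {H : Type*} [Group H] [TopologicalSpace H] [IsTopologicalGroup H] [LocallyCompactSpace H]
  [SecondCountableTopology H] [T2Space H] [MeasurableSpace H] [BorelSpace H]

variable (m : Measure H) [m.IsHaarMeasure]

lemma inv_ac {μ : Measure H} (hμ : μ ≪ m) : μ.map Inv.inv ≪ m :=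
  (hμ.map measurable_inv).trans (quasiMeasurePreserving_inv m).absolutelyContinuous

/-- integral against a probability measure concentrated on a set -/
lemma int_conc {ρ : Measure H} [IsProbabilityMeasure ρ] {V : Set H} (hV : ρ Vᶜ = 0) {g : H → ℝ}
    {C : ℝ} (hg : ∀ v ∈ V, |g v| ≤ C) : |∫ v, g v ∂ρ| ≤ C := by
  have h1 : ∀ᵐ v ∂ρ, ‖g v‖ ≤ C := by
    have h2 : ∀ᵐ v ∂ρ, v ∈ V := by
      rw [ae_iff]
      exact hV
    filter_upwards [h2] with v hv
    exact hg v hv
  have h3 := norm_integral_le_of_norm_le_const h1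
  rw [probReal_univ, mul_one] at h3
  exact h3

lemma absorb {μ : Measure H} [IsFiniteMeasure μ] (hμ : μ ≪ m) {ε : ℝ} (hε : 0 < ε) :
    ∀ᶠ V in (𝓝 (1 : H)).smallSets, ∀ (ρ : Measure H) [IsProbabilityMeasure ρ], ρ Vᶜ = 0 →
      ‖TT ρ * TT μ - TT μ‖ ≤ ε ∧ ‖TT μ * TT ρ - TT μ‖ ≤ ε := by
  have h1 := left_shift m hμ hε
  have h2 := left_shift m (inv_ac m hμ) hε
  have h3 : ∀ᶠ v in 𝓝 (1 : H), ∀ F : H →ᵇ ℝ, |∫ u, F (v⁻¹ * u) ∂(μ.map Inv.inv) -
      ∫ u, F u ∂(μ.map Inv.inv)| ≤ ε * ‖F‖ := by
    have h4 : Tendsto (fun v : H => v⁻¹) (𝓝 1) (𝓝 1) := by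
      have := (continuous_inv (G := H)).tendsto 1
      rwa [inv_one] at this
    exact h4.eventually h2
  have h5 := (h1.and h3).smallSets
  filter_upwards [h5] with V hV ρ _ hρ
  constructor
  · refine ContinuousLinearMap.opNorm_le_bound _ hε.le fun f => ?_
    rw [norm_le (by positivity)]
    intro s
    show ‖∫ v, (∫ u, f (s * v * u) ∂μ) ∂ρ - ∫ u, f (s * u) ∂μ‖ ≤ _
    have h6 : ∫ v, (∫ u, f (s * v * u) ∂μ) ∂ρ - ∫ u, f (s * u) ∂μ =
        ∫ v, ((∫ u, f (s * v * u) ∂μ) - ∫ u, f (s * u) ∂μ) ∂ρ := by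
      rw [integral_sub]
      · simp
      · exact int_tr ρ (TT μ f) s
      · exact integrable_const _
    rw [h6, Real.norm_eq_abs]
    apply int_conc hρ
    intro v hv
    have h7 := (hV v hv).1 (tr f s)
    simp only [tr_apply, ← mul_assoc] at h7
    refine h7.trans ?_
    gcongr
    exact tr_norm f s
  · refine ContinuousLinearMap.opNorm_le_bound _ hε.le fun f => ?_
    rw [norm_le (by positivity)]
    intro s
    show ‖∫ u, (∫ v, f (s * u * v) ∂ρ) ∂μ - ∫ u, f (s * u) ∂μ‖ ≤ _
    have hswap : ∫ u, (∫ v, f (s * u * v) ∂ρ) ∂μ = ∫ v, (∫ u, f (s * u * v) ∂μ) ∂ρ := by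
      apply integral_integral_swap
      apply Integrable.of_bound (C := ‖f‖)
      · apply Continuous.aestronglyMeasurable
        exact f.continuous.comp ((continuous_const.mul continuous_fst).mul continuous_snd)
      · exact Eventually.of_forall fun p => f.norm_coe_le_norm _
    have hint : Integrable (fun v => ∫ u, f (s * u * v) ∂μ) ρ := by
      have h0 : Continuous fun v => ∫ u, f (s * u * v) ∂μ := by
        apply continuous_of_dominated (bound := fun _ => ‖f‖)
        · intro v
          exact (f.continuous.comp (by fun_prop)).aestronglyMeasurable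
        · intro v
          exact Eventually.of_forall fun u => f.norm_coe_le_norm _
        · exact integrable_const _
        · exact Eventually.of_forall fun u => f.continuous.comp (by fun_prop)
      apply Integrable.of_bound (C := μ.real univ * ‖f‖) h0.aestronglyMeasurable
      refine Eventually.of_forall fun v => ?_
      have h1 := norm_integral_le_of_norm_le_const (μ := μ) (f := fun u => f (s * u * v)) (C := ‖f‖)
        (Eventually.of_forall fun u => f.norm_coe_le_norm _)
      rwa [mul_comm] at h1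
    have h6 : ∫ u, (∫ v, f (s * u * v) ∂ρ) ∂μ - ∫ u, f (s * u) ∂μ =
        ∫ v, ((∫ u, f (s * u * v) ∂μ) - ∫ u, f (s * u) ∂μ) ∂ρ := by
      rw [hswap, integral_sub hint (integrable_const _)]
      simp
    rw [h6, Real.norm_eq_abs]
    apply int_conc hρ
    intro v hv
    let G : H →ᵇ ℝ := f.compContinuous ⟨fun w => s * w⁻¹, by fun_prop⟩
    have h7 := (hV v hv).2 G
    have h8 : ∫ u, G (v⁻¹ * u) ∂(μ.map Inv.inv) = ∫ u, f (s * u * v) ∂μ := by
      have hGm : AEStronglyMeasurable (fun u => G (v⁻¹ * u)) (μ.map Inv.inv) :=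
        (G.continuous.comp (continuous_const_mul _)).aestronglyMeasurable
      rw [integral_map measurable_inv.aemeasurable hGm]
      congr 1
      funext u
      show f (s * (v⁻¹ * u⁻¹)⁻¹) = _
      rw [mul_inv_rev, inv_inv, inv_inv, mul_assoc]
    have h9 : ∫ u, G u ∂(μ.map Inv.inv) = ∫ u, f (s * u) ∂μ := by
      rw [integral_map measurable_inv.aemeasurable G.continuous.aestronglyMeasurable]
      congr 1
      funext u
      show f (s * u⁻¹⁻¹) = _
      rw [inv_inv]
    rw [h8, h9] at h7
    refine h7.trans ?_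
    gcongr
    rw [norm_le (norm_nonneg _)]
    intro x
    exact f.norm_coe_le_norm _

/-- absolutely continuous probability measures concentrated near the identity -/
lemma exists_near {V : Set H} (hV : V ∈ 𝓝 (1 : H)) :
    ∃ ρ : Measure H, IsProbabilityMeasure ρ ∧ ρ ≪ m ∧ ρ Vᶜ = 0 := by
  obtain ⟨K, hK, hK1, hKV⟩ := local_compact_nhds hV
  obtain ⟨W, hW⟩ : ∃ W, W = interior K := ⟨_, rfl⟩
  have hWo : IsOpen W := by rw [hW]; exact isOpen_interior
  have h1W : (1 : H) ∈ W := by rw [hW]; exact mem_interior_iff_mem_nhds.2 hK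
  have hWV : W ⊆ V := by rw [hW]; exact interior_subset.trans hK1
  have h0 : m W ≠ 0 := (hWo.measure_pos m ⟨1, h1W⟩).ne'
  have hfin : m W ≠ ⊤ := by
    refine ne_top_of_le_ne_top hKV.measure_lt_top.ne (measure_mono ?_)
    rw [hW]
    exact interior_subset
  refine ⟨ProbabilityTheory.cond m W, ?_, ProbabilityTheory.cond_absolutelyContinuous, ?_⟩
  · exact ProbabilityTheory.cond_isProbabilityMeasure_of_finite h0 hfin
  · have h1 : ProbabilityTheory.cond m W Wᶜ = 0 := by
      rw [ProbabilityTheory.cond_apply hWo.measurableSet, inter_compl_self, measure_empty, mul_zero]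
    exact measure_mono_null (compl_subset_compl.2 hWV) h1

/-- the norm in `L¹` is computed by bounded continuous functions -/
lemma l1_norm_le (h : Lp ℝ 1 m) {C : ℝ} (hC : ∀ F : H →ᵇ ℝ, ‖F‖ ≤ 1 → |∫ u, F u * h u ∂m| ≤ C) :
    ‖h‖ ≤ C := by
  have hh : Integrable h m := memLp_one_iff_integrable.1 (Lp.memLp h)
  apply le_of_forall_pos_le_add
  intro ε hε
  let μ' : Measure H := m.withDensity fun u => ‖h u‖ₑ
  have hfin : IsFiniteMeasure μ' := isFiniteMeasure_withDensity hh.2.ne
  obtain ⟨g, hg⟩ : ∃ g : H → ℝ, g = fun u => if 0 ≤ h u then 1 else -1 := ⟨_, rfl⟩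
  have hgm : AEStronglyMeasurable g m := by
    rw [hg]
    exact (Measurable.ite (measurableSet_le measurable_const (Lp.stronglyMeasurable h).measurable)
      measurable_const measurable_const).aestronglyMeasurable
  have hg1 : ∀ u, |g u| ≤ 1 := by
    intro u
    rw [hg]
    show |if 0 ≤ h u then (1 : ℝ) else -1| ≤ 1
    split_ifs <;> simp
  have hgi : Integrable g μ' := by
    apply Integrable.of_bound (C := 1)
    · exact hgm.mono_ac (withDensity_absolutelyContinuous _ _)
    · exact Eventually.of_forall hg1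
  obtain ⟨F0, hF0, hF0i⟩ := hgi.exists_boundedContinuous_integral_sub_le hε
  let F : H →ᵇ ℝ := BoundedContinuousFunction.ofNormedAddCommGroup
    (fun u => max (-1) (min 1 (F0 u))) (by fun_prop) 1 (by
      intro u
      rw [Real.norm_eq_abs, abs_le]
      exact ⟨le_max_left _ _, max_le (by norm_num) (min_le_left _ _)⟩)
  have hF1 : ‖F‖ ≤ 1 := by
    rw [norm_le (by norm_num)]
    intro u
    show ‖max (-1) (min 1 (F0 u))‖ ≤ 1
    rw [Real.norm_eq_abs, abs_le]
    exact ⟨le_max_left _ _, max_le (by norm_num) (min_le_left _ _)⟩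
  have hclip : ∀ u, |g u - F u| ≤ |g u - F0 u| := by
    intro u
    show |g u - max (-1) (min 1 (F0 u))| ≤ _
    obtain ⟨h1, h2⟩ := abs_le.1 (hg1 u)
    rcases le_total (F0 u) (-1) with h3 | h3
    · rw [min_eq_right (by linarith), max_eq_left h3, abs_of_nonneg (by linarith),
        abs_of_nonneg (by linarith)]
      linarith
    · rcases le_total (F0 u) 1 with h4 | h4
      · rw [min_eq_right h4, max_eq_right h3]
      · rw [min_eq_left h4, max_eq_right (by norm_num), abs_of_nonpos (by linarith),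
          abs_of_nonpos (by linarith)]
        linarith
  have h1 : ∫ u, |g u - F0 u| * ‖h u‖ ∂m ≤ ε := by
    have h2 : ∫ u, ‖g u - F0 u‖ ∂μ' = ∫ u, |g u - F0 u| * ‖h u‖ ∂m := by
      rw [integral_withDensity_eq_integral_toReal_smul₀ hh.1.enorm
        (Eventually.of_forall fun u => enorm_lt_top)]
      congr 1
      funext u
      rw [smul_eq_mul, toReal_enorm, mul_comm, Real.norm_eq_abs (g u - F0 u)]
    rw [← h2]
    exact hF0
  have hFi : Integrable (fun u => F u * h u) m :=
    hh.bdd_mul (c := ‖F‖) F.continuous.aestronglyMeasurable (Eventually.of_forall F.norm_coe_le_norm)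
  have hF0i' : Integrable (fun u => F0 u * h u) m :=
    hh.bdd_mul (c := ‖F0‖) F0.continuous.aestronglyMeasurable (Eventually.of_forall F0.norm_coe_le_norm)
  have hgi' : Integrable (fun u => g u * h u) m :=
    hh.bdd_mul (c := 1) hgm (Eventually.of_forall hg1)
  have h2 : ‖h‖ = ∫ u, g u * h u ∂m := by
    rw [L1.norm_eq_integral_norm]
    congr 1
    funext u
    rw [hg, Real.norm_eq_abs]
    show |h u| = (if 0 ≤ h u then (1 : ℝ) else -1) * h u
    split_ifs with h3
    · rw [abs_of_nonneg h3, one_mul]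
    · rw [abs_of_neg (not_le.1 h3)]
      ring
  have h3 : ∫ u, g u * h u ∂m - ∫ u, F u * h u ∂m ≤ ε := by
    rw [← integral_sub hgi' hFi]
    refine le_trans (integral_mono (hgi'.sub hFi) (g := fun u => |g u - F0 u| * ‖h u‖) ?_ ?_) h1
    · have h4 := (hgi'.sub hF0i').norm
      refine h4.congr (Eventually.of_forall fun u => ?_)
      show ‖g u * h u - F0 u * h u‖ = _
      rw [← sub_mul, norm_mul, Real.norm_eq_abs (g u - F0 u)]
    · intro u
      show g u * h u - F u * h u ≤ |g u - F0 u| * ‖h u‖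
      rw [← sub_mul]
      calc (g u - F u) * h u ≤ |(g u - F u) * h u| := le_abs_self _
        _ = |g u - F u| * |h u| := abs_mul _ _
        _ ≤ |g u - F0 u| * ‖h u‖ := mul_le_mul_of_nonneg_right (hclip u) (abs_nonneg _)
  have h4 := hC F hF1
  have h5 := le_abs_self (∫ u, F u * h u ∂m)
  linarith

end Pool.Agent.X196.CS
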