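import Pool.Agent.X196.CS.Op2

/-!
# The cone of absolutely continuous measures is closed; the semigroup
-/

set_option autoImplicit false
set_option linter.unusedSectionVars false

open Set Filter Topology MeasureTheory BoundedContinuousFunction NormedSpace
open scoped ZeroAtInfty

namespace Pool.Agent.X196.CS

variable {H : Type*} [Group H] [TopologicalSpace H] [IsTopologicalGroup H] [LocallyCompactSpace H]
  [SecondCountableTopology H] [T2Space H] [MeasurableSpace H] [BorelSpace H]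

instance instNT : Nontrivial (H →ᵇ ℝ) := ⟨⟨0, const H 1, fun h => by
  have h1 : (0 : H →ᵇ ℝ) 1 = const H (1 : ℝ) 1 := by rw [← h]
  simp at h1⟩⟩

/-- the Banach algebra of bounded operators -/
def Alg (H : Type*) [TopologicalSpace H] : Type _ := (H →ᵇ ℝ) →L[ℝ] (H →ᵇ ℝ)

noncomputable instance instNR : NormedRing (Alg H) :=
  inferInstanceAs (NormedRing ((H →ᵇ ℝ) →L[ℝ] (H →ᵇ ℝ)))

noncomputable instance instNA : NormedAlgebra ℝ (Alg H) :=
  inferInstanceAs (NormedAlgebra ℝ ((H →ᵇ ℝ) →L[ℝ] (H →ᵇ ℝ)))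

instance instCS : CompleteSpace (Alg H) :=
  inferInstanceAs (CompleteSpace ((H →ᵇ ℝ) →L[ℝ] (H →ᵇ ℝ)))

instance instNO : NormOneClass (Alg H) :=
  inferInstanceAs (NormOneClass ((H →ᵇ ℝ) →L[ℝ] (H →ᵇ ℝ)))

/-- application -/
noncomputable def app (A : Alg H) (f : H →ᵇ ℝ) : H →ᵇ ℝ :=
  (show (H →ᵇ ℝ) →L[ℝ] (H →ᵇ ℝ) from A) f

lemma app_mul (A B : Alg H) (f : H →ᵇ ℝ) : app (A * B) f = app A (app B f) := rfl
lemma app_one (f : H →ᵇ ℝ) : app (1 : Alg H) f = f := rfl
lemma app_sub (A B : Alg H) (f : H →ᵇ ℝ) : app (A - B) f = app A f - app B f := rfl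
lemma app_add (A B : Alg H) (f : H →ᵇ ℝ) : app (A + B) f = app A f + app B f := rfl
lemma app_smul (c : ℝ) (A : Alg H) (f : H →ᵇ ℝ) : app (c • A) f = c • app A f := rfl
lemma app_zero (f : H →ᵇ ℝ) : app (0 : Alg H) f = 0 := rfl
lemma app_vzero (A : Alg H) : app A 0 = 0 := map_zero (show (H →ᵇ ℝ) →L[ℝ] (H →ᵇ ℝ) from A)
lemma app_vsub (A : Alg H) (f g : H →ᵇ ℝ) : app A (f - g) = app A f - app A g :=
  map_sub (show (H →ᵇ ℝ) →L[ℝ] (H →ᵇ ℝ) from A) f g

lemma app_norm (A : Alg H) (f : H →ᵇ ℝ) : ‖app A f‖ ≤ ‖A‖ * ‖f‖ :=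
  ContinuousLinearMap.le_opNorm (show (H →ᵇ ℝ) →L[ℝ] (H →ᵇ ℝ) from A) f

lemma app_tendsto {ι : Type*} {l : Filter ι} {A : ι → Alg H} {B : Alg H} (h : Tendsto A l (𝓝 B))
    (f : H →ᵇ ℝ) : Tendsto (fun n => app (A n) f) l (𝓝 (app B f)) := by
  rw [tendsto_iff_norm_sub_tendsto_zero] at h ⊢
  have h1 := h.mul_const ‖f‖
  rw [zero_mul] at h1
  refine squeeze_zero (fun _ => norm_nonneg _) (fun n => ?_) h1
  rw [← app_sub]
  exact app_norm _ _

lemma app_tendsto_apply {ι : Type*} {l : Filter ι} {A : ι → Alg H} {B : Alg H}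
    (h : Tendsto A l (𝓝 B)) (f : H →ᵇ ℝ) (s : H) :
    Tendsto (fun n => app (A n) f s) l (𝓝 (app B f s)) := by
  have h1 := app_tendsto h f
  rw [tendsto_iff_norm_sub_tendsto_zero] at h1 ⊢
  refine squeeze_zero (fun _ => norm_nonneg _) (fun n => ?_) h1
  exact (app (A n) f - app B f).norm_coe_le_norm s

lemma app_sum (A : ℕ → Alg H) (s : Finset ℕ) (f : H →ᵇ ℝ) :
    app (∑ i ∈ s, A i) f = ∑ i ∈ s, app (A i) f := by
  classical
  induction s using Finset.induction_on with
  | empty => rfl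
  | insert a s ha ih => rw [Finset.sum_insert ha, Finset.sum_insert ha, app_add, ih]

/-- the operator of a finite measure as an element of the algebra -/
noncomputable def TA (μ : Measure H) [IsFiniteMeasure μ] : Alg H := TT μ

lemma TA_apply (μ : Measure H) [IsFiniteMeasure μ] (f : H →ᵇ ℝ) (s : H) :
    app (TA μ) f s = ∫ u, f (s * u) ∂μ := rfl

lemma TA_ext {A B : Alg H} (h : ∀ f s, app A f s = app B f s) : A = B := TT_ext A B h

variable (m : Measure H) [m.IsHaarMeasure]

/-- the operators of finite absolutely continuous measures -/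
def CC : Set (Alg H) :=
  {A | ∃ (μ : Measure H) (_ : IsFiniteMeasure μ), μ ≪ m ∧ A = TA μ}

/-- the operators of absolutely continuous probability measures -/
def PP : Set (Alg H) :=
  {A | ∃ (μ : Measure H) (_ : IsProbabilityMeasure μ), μ ≪ m ∧ A = TA μ}

lemma PP_CC : PP m ⊆ CC m := by
  rintro A ⟨μ, _, h1, h2⟩
  exact ⟨μ, inferInstance, h1, h2⟩

lemma CC_add : ∀ x ∈ CC m, ∀ y ∈ CC m, x + y ∈ CC m := by
  rintro _ ⟨μ, _, h1, rfl⟩ _ ⟨ν, _, h2, rfl⟩
  exact ⟨μ + ν, inferInstance, Measure.AbsolutelyContinuous.add_left h1 h2, (TT_add μ ν).symm⟩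

lemma CC_mul : ∀ x ∈ CC m, ∀ y ∈ CC m, x * y ∈ CC m := by
  rintro _ ⟨μ, _, h1, rfl⟩ _ ⟨ν, _, h2, rfl⟩
  exact ⟨μ ∗ₘ ν, inferInstance, Measure.mconv_absolutelyContinuous h2, (TT_mconv μ ν).symm⟩

lemma CC_zero : (0 : Alg H) ∈ CC m :=
  ⟨0, inferInstance, Measure.AbsolutelyContinuous.zero m, TT_zero.symm⟩

lemma CC_smul {c : ℝ} (hc : 0 ≤ c) : ∀ x ∈ CC m, c • x ∈ CC m := by
  rintro _ ⟨μ, _, h1, rfl⟩
  refine ⟨c.toNNReal • μ, inferInstance, h1.smul_left _, ?_⟩
  have h2 := TT_smul c.toNNReal μ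
  rw [Real.coe_toNNReal c hc] at h2
  exact h2.symm

lemma CC_closed (A : ℕ → Alg H) (hA : ∀ n, A n ∈ CC m)
    (B : Alg H) (hB : Tendsto A atTop (𝓝 B)) : B ∈ CC m := by
  choose μ hfin hac hT using hA
  let h : ℕ → Lp ℝ 1 m := fun n => dens m (μ n)
  have hd : ∀ n k, ‖h n - h k‖ ≤ ‖A n - A k‖ := by
    intro n k
    apply l1_norm_le
    intro F hF
    have hn : Integrable (h n) m := memLp_one_iff_integrable.1 (Lp.memLp _)
    have hk : Integrable (h k) m := memLp_one_iff_integrable.1 (Lp.memLp _)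
    have hFn : Integrable (fun u => F u * h n u) m :=
      hn.bdd_mul (c := ‖F‖) F.continuous.aestronglyMeasurable (Eventually.of_forall F.norm_coe_le_norm)
    have hFk : Integrable (fun u => F u * h k u) m :=
      hk.bdd_mul (c := ‖F‖) F.continuous.aestronglyMeasurable (Eventually.of_forall F.norm_coe_le_norm)
    have h1 : ∫ u, F u * (h n - h k : Lp ℝ 1 m) u ∂m = app (A n - A k) F 1 := by
      have h2 : ∫ u, F u * (h n - h k : Lp ℝ 1 m) u ∂m = ∫ u, F u * h n u - F u * h k u ∂m := by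
        apply integral_congr_ae
        filter_upwards [Lp.coeFn_sub (h n) (h k)] with u hu
        rw [hu, Pi.sub_apply, mul_sub]
      rw [h2, integral_sub hFn hFk, hT n, hT k]
      show _ = app (TA (μ n)) F 1 - app (TA (μ k)) F 1
      rw [TA_apply, TA_apply]
      simp only [one_mul]
      rw [int_dens m (hac n), int_dens m (hac k)]
    rw [h1, ← Real.norm_eq_abs]
    calc ‖app (A n - A k) F 1‖ ≤ ‖app (A n - A k) F‖ := norm_coe_le_norm _ _
      _ ≤ ‖A n - A k‖ * ‖F‖ := app_norm _ _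
      _ ≤ ‖A n - A k‖ * 1 := by gcongr
      _ = _ := mul_one _
  have hc : CauchySeq h := by
    have h1 := hB.cauchySeq
    rw [Metric.cauchySeq_iff] at h1 ⊢
    intro ε hε
    obtain ⟨N, hN⟩ := h1 ε hε
    refine ⟨N, fun n hn k hk => ?_⟩
    have := hN n hn k hk
    rw [dist_eq_norm] at this ⊢
    exact (hd n k).trans_lt this
  obtain ⟨g, hg⟩ := cauchySeq_tendsto_of_complete hc
  have hg0 : 0 ≤ g := by
    apply ge_of_tendsto' hg
    intro n
    rw [← Lp.coeFn_nonneg]
    filter_upwards [dens_coe m (μ n)] with u hu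
    show 0 ≤ (h n) u
    rw [hu]
    exact ENNReal.toReal_nonneg
  have hgi : Integrable g m := memLp_one_iff_integrable.1 (Lp.memLp _)
  have hfin' : IsFiniteMeasure (m.withDensity fun u => ENNReal.ofReal (g u)) := by
    apply isFiniteMeasure_withDensity_ofReal
    exact hgi.2
  refine ⟨m.withDensity fun u => ENNReal.ofReal (g u), hfin', withDensity_absolutelyContinuous _ _, ?_⟩
  apply TA_ext
  intro f s
  have h1 : app (TA (m.withDensity fun u => ENNReal.ofReal (g u))) f s =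
      ∫ u, f (s * u) * g u ∂m := by
    rw [TA_apply, integral_withDensity_eq_integral_toReal_smul₀
      (Lp.stronglyMeasurable g).measurable.ennreal_ofReal.aemeasurable
      (Eventually.of_forall fun u => ENNReal.ofReal_lt_top)]
    apply integral_congr_ae
    filter_upwards [(Lp.coeFn_nonneg g).2 hg0] with u hu
    rw [ENNReal.toReal_ofReal hu, smul_eq_mul, mul_comm]
  rw [h1]
  have h2 : Tendsto (fun n => app (A n) f s) atTop (𝓝 (app B f s)) := app_tendsto_apply hB f s
  have h3 : Tendsto (fun n => app (A n) f s) atTop (𝓝 (∫ u, f (s * u) * g u ∂m)) := by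
    have h4 : ∀ n, app (A n) f s = ∫ u, f (s * u) * h n u ∂m := by
      intro n
      rw [hT n, TA_apply]
      exact int_dens m (hac n) (tr f s)
    rw [tendsto_iff_norm_sub_tendsto_zero]
    have h5 : Tendsto (fun n => ‖f‖ * ‖h n - g‖) atTop (𝓝 0) := by
      have h6 := (tendsto_iff_norm_sub_tendsto_zero.1 hg).const_mul ‖f‖
      rwa [mul_zero] at h6
    refine squeeze_zero (fun _ => norm_nonneg _) (fun n => ?_) h5
    have hn : Integrable (h n) m := memLp_one_iff_integrable.1 (Lp.memLp _)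
    have i1 : Integrable (fun u => f (s * u) * h n u) m :=
      hn.bdd_mul (c := ‖f‖) (tr f s).continuous.aestronglyMeasurable
        (Eventually.of_forall fun u => f.norm_coe_le_norm _)
    have i2 : Integrable (fun u => f (s * u) * g u) m :=
      hgi.bdd_mul (c := ‖f‖) (tr f s).continuous.aestronglyMeasurable
        (Eventually.of_forall fun u => f.norm_coe_le_norm _)
    rw [h4, ← integral_sub i1 i2]
    refine (norm_integral_le_integral_norm _).trans ?_
    rw [L1.norm_eq_integral_norm, ← integral_const_mul]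
    have hsub : Integrable (h n - g : Lp ℝ 1 m) m := memLp_one_iff_integrable.1 (Lp.memLp _)
    refine integral_mono_ae (i1.sub i2).norm (hsub.norm.const_mul _) ?_
    filter_upwards [Lp.coeFn_sub (h n) g] with u hu
    rw [hu, Pi.sub_apply, ← mul_sub, norm_mul]
    gcongr
    exact f.norm_coe_le_norm _
  exact tendsto_nhds_unique h2 h3

/-- `exp (t R) - 1` for `R` in the cone -/
lemma exp_mem {R : Alg H} (hR : R ∈ CC m) {t : ℝ} (ht : 0 ≤ t) :
    exp (t • R) - 1 ∈ CC m := by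
  have h1 : HasSum (fun n : ℕ => ((n.factorial : ℝ))⁻¹ • (t • R) ^ n) (exp (t • R)) :=
    exp_series_hasSum_exp' (𝕂 := ℝ) (t • R)
  have h2 := (h1.tendsto_sum_nat.comp (tendsto_add_atTop_nat 1)).sub_const 1
  refine CC_closed m _ (fun n => ?_) _ h2
  have h3 : ∀ n : ℕ, ∑ i ∈ Finset.range (n + 1), ((i.factorial : ℝ))⁻¹ • (t • R) ^ i - 1 =
      ∑ i ∈ Finset.range n, (((i + 1).factorial : ℝ))⁻¹ • (t • R) ^ (i + 1) := by
    intro n
    rw [Finset.sum_range_succ', Nat.factorial_zero, Nat.cast_one, inv_one, one_smul, pow_zero,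
      add_sub_cancel_right]
  show ∑ i ∈ Finset.range (n + 1), ((i.factorial : ℝ))⁻¹ • (t • R) ^ i - 1 ∈ CC m
  rw [h3]
  have hpow : ∀ i : ℕ, R ^ (i + 1) ∈ CC m := by
    intro i
    induction i with
    | zero => simpa using hR
    | succ i ih =>
      rw [pow_succ]
      exact CC_mul m _ ih _ hR
  clear h1 h2
  induction n with
  | zero => simpa using CC_zero m
  | succ n ih =>
    rw [Finset.sum_range_succ]
    refine CC_add m _ ih _ ?_
    rw [smul_pow, smul_smul]
    exact CC_smul m (by positivity) _ (hpow n)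

/-- exponentials fix the kernel -/
lemma exp_apply_of_zero {A : Alg H} {v : H →ᵇ ℝ} (h : app A v = 0) : app (exp A) v = v := by
  have h1 : HasSum (fun n : ℕ => ((n.factorial : ℝ))⁻¹ • A ^ n) (exp A) :=
    exp_series_hasSum_exp' (𝕂 := ℝ) A
  have h2 := app_tendsto (h1.tendsto_sum_nat.comp (tendsto_add_atTop_nat 1)) v
  refine tendsto_nhds_unique h2 ?_
  have h3 : ∀ n : ℕ, app (∑ i ∈ Finset.range (n + 1), ((i.factorial : ℝ))⁻¹ • A ^ i) v = v := by
    intro n
    rw [Finset.sum_range_succ', app_add, app_sum]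
    have h4 : ∑ i ∈ Finset.range n, app ((((i + 1).factorial : ℝ))⁻¹ • A ^ (i + 1)) v = 0 := by
      apply Finset.sum_eq_zero
      intro i _
      rw [app_smul, pow_succ, app_mul, h, app_vzero, smul_zero]
    rw [h4, zero_add, Nat.factorial_zero, Nat.cast_one, inv_one, one_smul, pow_zero, app_one]
  have h5 : (fun n => app (((fun n => ∑ i ∈ Finset.range n, ((i.factorial : ℝ))⁻¹ • A ^ i) ∘
      fun a => a + 1) n) v) = fun _ => v := by
    funext n
    exact h3 n
  rw [h5]
  exact tendsto_const_nhds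

end Pool.Agent.X196.CS
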