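import Pool.Agent.X196.CS.Exp

/-!
# A semigroup with infinitely many jumps, in a Banach algebra
-/

set_option autoImplicit false
set_option linter.unusedSectionVars false

open Set Filter Topology NormedSpace

namespace Pool.Agent.X196.CS

variable {𝔸 : Type*} [NormedRing 𝔸] [NormedAlgebra ℝ 𝔸] [CompleteSpace 𝔸] [NormOneClass 𝔸]

theorem abs_main (C P : Set 𝔸) (hPC : P ⊆ C) (hadd : ∀ x ∈ C, ∀ y ∈ C, x + y ∈ C)
    (h0 : (0 : 𝔸) ∈ C) (hP : ∀ p ∈ P, ‖p‖ ≤ 1)
    (habs : ∀ Q : Finset 𝔸, (∀ q ∈ Q, q ∈ C) → ∀ ε : ℝ, 0 < ε →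
      ∃ p ∈ P, ∀ q ∈ Q, ‖p * q - q‖ ≤ ε ∧ ‖q * p - q‖ ≤ ε)
    (q : ℕ → 𝔸) (hq : ∀ M, q M ∈ C) :
    ∃ (r : ℕ → 𝔸) (x : ℝ → 𝔸), (∀ k, r k ∈ P) ∧
      (∀ t : ℝ, 0 < t → Tendsto (fun N : ℕ => xx (∑ k ∈ Finset.range N, r k) N t) atTop (𝓝 (x t))) ∧
      ∀ M, Tendsto (fun t => x t * q M) (𝓝[>] 0) (𝓝 (q M)) := by
  classical
  have step1 : ∀ (N : ℕ) (R : 𝔸), (R ∈ C ∧ ‖R‖ ≤ N) → ∃ p : 𝔸, p ∈ P ∧
      (∀ t ∈ Icc (0 : ℝ) N, ‖xx (R + p) (N + 1) t - xx R N t -
        Real.exp (-(t * N)) • (xx p 1 t - 1)‖ ≤ (1 / 2) ^ N) ∧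
      ∀ M ≤ N, ‖p * q M - q M‖ ≤ (1 / 2) ^ N / (N + 1) := by
    rintro N R ⟨hRC, hRN⟩
    obtain ⟨K, hK⟩ : ∃ K : ℝ, K = (N * (Real.exp (N * N) + 1)) * Real.exp ((2 * N + 2) * N) := ⟨_, rfl⟩
    have hK0 : 0 ≤ K := by rw [hK]; positivity
    obtain ⟨p, hp, h⟩ := habs (insert R ((Finset.range (N + 1)).image q)) (by
      intro x hx
      rcases Finset.mem_insert.1 hx with rfl | hx
      · exact hRC
      · obtain ⟨M, _, rfl⟩ := Finset.mem_image.1 hx
        exact hq M) (min ((1 / 2) ^ N / (N + 1)) ((1 / 2) ^ N / (K + 1))) (by positivity)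
    refine ⟨p, hp, ?_, ?_⟩
    · intro t ht
      have h1 := h R (Finset.mem_insert_self _ _)
      have h2 := step hRN (hP p hp) (h1.1.trans (min_le_right _ _)) (h1.2.trans (min_le_right _ _)) ht
      refine h2.trans ?_
      rw [mul_assoc, ← hK, div_mul_eq_mul_div, div_le_iff₀ (by positivity)]
      gcongr
      linarith
    · intro M hM
      exact (h (q M) (Finset.mem_insert_of_mem (Finset.mem_image_of_mem _
        (Finset.mem_range.2 (by omega))))).1.trans (min_le_left _ _)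
  choose! pick hpick1 hpick2 hpick3 using step1
  let Rs : ℕ → 𝔸 := fun N => Nat.rec 0 (fun N R => R + pick N R) N
  have hRs0 : Rs 0 = 0 := rfl
  have hRs : ∀ N, Rs (N + 1) = Rs N + pick N (Rs N) := fun N => rfl
  have hRC : ∀ N : ℕ, Rs N ∈ C ∧ ‖Rs N‖ ≤ N := by
    intro N
    induction N with
    | zero => exact ⟨h0, by rw [hRs0, norm_zero]; simp⟩
    | succ N ih =>
      have h1 := hpick1 N (Rs N) ih
      refine ⟨?_, ?_⟩
      · rw [hRs]
        exact hadd _ ih.1 _ (hPC h1)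
      · rw [hRs]
        push_cast
        exact (norm_add_le _ _).trans (add_le_add ih.2 (hP _ h1))
  let r : ℕ → 𝔸 := fun N => pick N (Rs N)
  have hsum : ∀ N, ∑ k ∈ Finset.range N, r k = Rs N := by
    intro N
    induction N with
    | zero => rfl
    | succ N ih => rw [Finset.sum_range_succ, ih, hRs]
  have hr : ∀ N, r N ∈ P := fun N => hpick1 N (Rs N) (hRC N)
  let X : ℕ → ℝ → 𝔸 := fun N t => xx (Rs N) N t
  have hX1 : ∀ N t, 0 ≤ t → ‖X N t‖ ≤ 1 := fun N t ht => xx_norm_le (hRC N).2 ht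
  have hst : ∀ (N : ℕ) (t : ℝ), t ∈ Icc (0 : ℝ) N → ‖X (N + 1) t - X N t -
      Real.exp (-(t * N)) • (xx (r N) 1 t - 1)‖ ≤ (1 / 2) ^ N := by
    intro N t ht
    have h1 := hpick2 N (Rs N) (hRC N) t ht
    have h2 : X (N + 1) t = xx (Rs N + pick N (Rs N)) (N + 1) t := by
      show xx (Rs (N + 1)) ((N + 1 : ℕ) : ℝ) t = _
      rw [hRs]
      push_cast
      rfl
    rw [h2]
    exact h1
  have hrn : ∀ (N : ℕ) (t : ℝ), 0 ≤ t → ‖xx (r N) 1 t‖ ≤ 1 := fun N t ht => xx_norm_le (hP _ (hr N)) ht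
  -- convergence
  have hconv : ∀ t : ℝ, 0 < t → ∃ y : 𝔸, Tendsto (fun N : ℕ => X N t) atTop (𝓝 y) := by
    intro t ht
    apply cauchySeq_tendsto_of_complete
    apply cauchySeq_of_dist_le_of_summable
      (fun N : ℕ => ((1 / 2) ^ N + 2 * Real.exp (-t) ^ N) + (if (N : ℝ) < t then 2 else 0))
    · intro N
      rw [dist_comm, dist_eq_norm]
      by_cases hN : (N : ℝ) < t
      · rw [if_pos hN]
        have h1 : ‖X (N + 1) t - X N t‖ ≤ 1 + 1 :=
          (norm_sub_le _ _).trans (add_le_add (hX1 (N + 1) t ht.le) (hX1 N t ht.le))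
        have h2 : 0 ≤ (1 / 2 : ℝ) ^ N + 2 * Real.exp (-t) ^ N := by positivity
        have h3 : N.succ = N + 1 := rfl
        rw [h3]
        linarith
      · rw [if_neg hN, add_zero]
        have h1 := hst N t ⟨ht.le, not_lt.1 hN⟩
        have h2 : ‖Real.exp (-(t * N)) • (xx (r N) 1 t - 1)‖ ≤ Real.exp (-t) ^ N * 2 := by
          rw [norm_smul, Real.norm_eq_abs, abs_of_pos (Real.exp_pos _), ← Real.exp_nat_mul]
          have h3 : -(t * N) = N * (-t) := by ring
          rw [h3]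
          gcongr
          calc ‖xx (r N) 1 t - 1‖ ≤ ‖xx (r N) 1 t‖ + ‖(1 : 𝔸)‖ := norm_sub_le _ _
            _ ≤ 1 + 1 := by
              rw [norm_one]
              exact add_le_add (hrn N t ht.le) le_rfl
            _ = 2 := by norm_num
        have h3 : X (N + 1) t - X N t = (X (N + 1) t - X N t -
            Real.exp (-(t * N)) • (xx (r N) 1 t - 1)) + Real.exp (-(t * N)) • (xx (r N) 1 t - 1) := by
          abel
        have h4 : N.succ = N + 1 := rfl
        rw [h4, h3]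
        refine (norm_add_le _ _).trans ?_
        linarith
    · refine Summable.add (Summable.add ?_ ?_) ?_
      · exact summable_geometric_of_lt_one (by norm_num) (by norm_num)
      · exact (summable_geometric_of_lt_one (Real.exp_pos _).le (Real.exp_lt_one_iff.2 (by linarith))).mul_left 2
      · apply summable_of_hasFiniteSupport
        apply (Set.finite_lt_nat (⌈t⌉₊)).subset
        intro N hN
        have h1 : (N : ℝ) < t := by
          by_contra h
          exact hN (if_neg h)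
        exact Nat.lt_ceil.2 h1
  choose! x hx using hconv
  refine ⟨r, x, hr, ?_, ?_⟩
  · intro t ht
    have h1 : (fun N : ℕ => xx (∑ k ∈ Finset.range N, r k) N t) = fun N : ℕ => X N t := by
      funext N
      rw [hsum]
    rw [h1]
    exact hx t ht
  · intro M
    obtain ⟨K, hK⟩ : ∃ K : ℝ, K = ‖q M‖ + 1 := ⟨_, rfl⟩
    have hK0 : 0 < K := by rw [hK]; positivity
    have hd : ∀ (N : ℕ) (t : ℝ), 1 ≤ N → M ≤ N → t ∈ Icc (0 : ℝ) 1 →
        ‖X (N + 1) t * q M - X N t * q M‖ ≤ (1 / 2) ^ N * K := by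
      intro N t hN1 hMN ht
      have hN : (1 : ℝ) ≤ N := by exact_mod_cast hN1
      have ht' : t ∈ Icc (0 : ℝ) N := ⟨ht.1, ht.2.trans hN⟩
      have h1 := hst N t ht'
      have h2 := absorb1 (T := N) (hP _ (hr N)) (hpick3 N (Rs N) (hRC N) M hMN) ht'
      have h3 : X (N + 1) t * q M - X N t * q M = (X (N + 1) t - X N t -
          Real.exp (-(t * N)) • (xx (r N) 1 t - 1)) * q M +
          Real.exp (-(t * N)) • (xx (r N) 1 t * q M - q M) := by
        simp only [sub_mul, smul_mul_assoc, smul_sub, one_mul]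
        abel
      rw [h3]
      refine (norm_add_le _ _).trans ?_
      have h4 : ‖Real.exp (-(t * N)) • (xx (r N) 1 t * q M - q M)‖ ≤ 1 * (1 / 2) ^ N := by
        rw [norm_smul, Real.norm_eq_abs, abs_of_pos (Real.exp_pos _)]
        have h5 : Real.exp (-(t * N)) ≤ 1 := Real.exp_le_one_iff.2 (by
          have := mul_nonneg ht.1 (by positivity : (0 : ℝ) ≤ N)
          linarith)
        have h6 : ‖xx (r N) 1 t * q M - q M‖ ≤ (1 / 2) ^ N := by
          refine h2.trans ?_
          rw [div_mul_eq_mul_div, div_le_iff₀ (by positivity)]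
          gcongr
          linarith
        gcongr
      calc _ ≤ (1 / 2) ^ N * ‖q M‖ + 1 * (1 / 2) ^ N :=
            add_le_add ((norm_mul_le _ _).trans (by gcongr)) h4
        _ = (1 / 2) ^ N * K := by rw [hK]; ring
    have hd2 : ∀ (N : ℕ) (t : ℝ), 1 ≤ N → M ≤ N → t ∈ Icc (0 : ℝ) 1 → ∀ j : ℕ,
        ‖X (N + j) t * q M - X N t * q M‖ ≤ 2 * (1 / 2) ^ N * K * (1 - (1 / 2) ^ j) := by
      intro N t hN1 hMN ht j
      induction j with
      | zero => simp
      | succ j ih =>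
        have h1 := hd (N + j) t (by omega) (by omega) ht
        have h2 : X (N + (j + 1)) t * q M - X N t * q M =
            (X (N + j + 1) t * q M - X (N + j) t * q M) + (X (N + j) t * q M - X N t * q M) := by
          rw [sub_add_sub_cancel]
          rfl
        rw [h2]
        refine (norm_add_le _ _).trans ((add_le_add h1 ih).trans (le_of_eq ?_))
        rw [pow_add, pow_succ]
        ring
    rw [Metric.tendsto_nhds]
    intro η hη
    obtain ⟨N₀, hN₀⟩ : ∃ N₀ : ℕ, (1 / 2 : ℝ) ^ N₀ < η / (4 * K) :=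
      exists_pow_lt_of_lt_one (by positivity) (by norm_num)
    obtain ⟨N, hN⟩ : ∃ N, N = max N₀ (max 1 M) := ⟨_, rfl⟩
    have hNN : (1 / 2 : ℝ) ^ N ≤ (1 / 2) ^ N₀ :=
      pow_le_pow_of_le_one (by norm_num) (by norm_num) (by omega)
    have hcont : Tendsto (fun t => X N t * q M) (𝓝[>] 0) (𝓝 (q M)) := by
      have h1 : ContinuousAt (fun t => X N t * q M) 0 :=
        ((xx_hasDeriv (Rs N) N 0).mul_const (q M)).continuousAt
      have h2 : X N 0 * q M = q M := by
        show xx (Rs N) N 0 * q M = q M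
        rw [xx_zero, one_mul]
      have h3 := h1.tendsto
      rw [h2] at h3
      exact h3.mono_left nhdsWithin_le_nhds
    rw [Metric.tendsto_nhds] at hcont
    have h4 : ∀ᶠ t : ℝ in 𝓝[>] 0, t ∈ Ioc (0 : ℝ) 1 := Ioc_mem_nhdsGT (by norm_num)
    filter_upwards [hcont (η / 2) (by positivity), h4] with t h5 h6
    have h7 : ‖x t * q M - X N t * q M‖ ≤ 2 * (1 / 2) ^ N * K := by
      have h8 : Tendsto (fun j : ℕ => X (N + j) t * q M - X N t * q M) atTop
          (𝓝 (x t * q M - X N t * q M)) := by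
        have h9 := (hx t h6.1).comp (tendsto_add_atTop_nat N)
        have h10 : (fun N : ℕ => X N t) ∘ (fun a => a + N) = fun j => X (N + j) t := by
          funext j
          simp [add_comm]
        rw [h10] at h9
        exact (h9.mul_const _).sub_const _
      refine le_of_tendsto h8.norm (Eventually.of_forall fun j => ?_)
      refine (hd2 N t (by omega) (by omega) ⟨h6.1.le, h6.2⟩ j).trans ?_
      have h11 : 0 ≤ (1 / 2 : ℝ) ^ j := by positivity
      have h12 : 0 ≤ 2 * (1 / 2) ^ N * K := by positivity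
      nlinarith
    rw [dist_eq_norm] at h5 ⊢
    have h13 : x t * q M - q M = (x t * q M - X N t * q M) + (X N t * q M - q M) := by abel
    rw [h13]
    refine (norm_add_le _ _).trans_lt ?_
    have h14 : 2 * (1 / 2) ^ N * K < η / 2 := by
      have h15 : (1 / 2 : ℝ) ^ N < η / (4 * K) := hNN.trans_lt hN₀
      rw [lt_div_iff₀ (by positivity)] at h15
      linarith
    linarith

end Pool.Agent.X196.CS
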